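import Pool.Agent.Helper69K1.GrS.Stm

/-!
# Piece F2d: descent from the complex to the rational enlarged space
-/

set_option autoImplicit false

namespace Pool.Agent.Helper98.GrS

open Module Pool.Agent.Helper69K1 Pool.Agent.Helper69K1.GrS

variable {N : ℕ}

/-- a rational matrix as a complex matrix -/
noncomputable def io (X : Matrix (Fin N) (Fin N) ℚ) : Matrix (Fin N) (Fin N) ℂ := X.map (algebraMap ℚ ℂ)

theorem io_mul (X Z : Matrix (Fin N) (Fin N) ℚ) : io (X * Z) = io X * io Z := Matrix.map_mul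

theorem io_sub (X Z : Matrix (Fin N) (Fin N) ℚ) : io (X - Z) = io X - io Z := by
  ext i j
  simp [io]

theorem io_add (X Z : Matrix (Fin N) (Fin N) ℚ) : io (X + Z) = io X + io Z := by
  ext i j
  simp [io]

theorem io_trace (X : Matrix (Fin N) (Fin N) ℚ) : (io X).trace = algebraMap ℚ ℂ X.trace := by
  rw [Matrix.trace, Matrix.trace, map_sum]
  rfl

theorem map_add'' (ρ : ℂ →ₗ[ℚ] ℚ) (x y : Matrix (Fin N) (Fin N) ℂ) :
    (x + y).map ρ = x.map ρ + y.map ρ := by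
  ext i j
  rw [Matrix.map_apply, Matrix.add_apply, map_add, Matrix.add_apply, Matrix.map_apply,
    Matrix.map_apply]

theorem map_sub'' (ρ : ℂ →ₗ[ℚ] ℚ) (x y : Matrix (Fin N) (Fin N) ℂ) :
    (x - y).map ρ = x.map ρ - y.map ρ := by
  ext i j
  rw [Matrix.map_apply, Matrix.sub_apply, map_sub, Matrix.sub_apply, Matrix.map_apply,
    Matrix.map_apply]

theorem map_zero'' (ρ : ℂ →ₗ[ℚ] ℚ) : (0 : Matrix (Fin N) (Fin N) ℂ).map ρ = 0 := by
  ext i j
  rw [Matrix.map_apply, Matrix.zero_apply, map_zero, Matrix.zero_apply]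

theorem map_smul'' (ρ : ℂ →ₗ[ℚ] ℚ) (c : ℂ) (x : Matrix (Fin N) (Fin N) ℂ) :
    (c • x).map ρ = x.map (ρ ∘ₗ LinearMap.mulLeft ℚ c) := by
  ext i j
  rw [Matrix.map_apply, Matrix.smul_apply, Matrix.map_apply]
  rfl

theorem rho_mul (ρ : ℂ →ₗ[ℚ] ℚ) (z : ℂ) (q : ℚ) : ρ (z * algebraMap ℚ ℂ q) = ρ z * q := by
  have h1 : z * algebraMap ℚ ℂ q = q • z := by
    rw [Algebra.smul_def, mul_comm]
  rw [h1, map_smul, smul_eq_mul, mul_comm]

theorem rho_mul' (ρ : ℂ →ₗ[ℚ] ℚ) (z : ℂ) (q : ℚ) : ρ (algebraMap ℚ ℂ q * z) = q * ρ z := by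
  rw [← Algebra.smul_def, map_smul, smul_eq_mul]

theorem mul_io (ρ : ℂ →ₗ[ℚ] ℚ) (Y : Matrix (Fin N) (Fin N) ℂ) (b : Matrix (Fin N) (Fin N) ℚ) :
    (Y * io b).map ρ = Y.map ρ * b := by
  ext i j
  rw [Matrix.map_apply, Matrix.mul_apply, Matrix.mul_apply, map_sum]
  exact Finset.sum_congr rfl fun l _ => rho_mul ρ _ _

theorem io_mul' (ρ : ℂ →ₗ[ℚ] ℚ) (Y : Matrix (Fin N) (Fin N) ℂ) (b : Matrix (Fin N) (Fin N) ℚ) :
    (io b * Y).map ρ = b * Y.map ρ := by
  ext i j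
  rw [Matrix.map_apply, Matrix.mul_apply, Matrix.mul_apply, map_sum]
  exact Finset.sum_congr rfl fun l _ => rho_mul' ρ _ _

theorem trace_map (ρ : ℂ →ₗ[ℚ] ℚ) (Y : Matrix (Fin N) (Fin N) ℂ) :
    (Y.map ρ).trace = ρ Y.trace := by
  rw [Matrix.trace, Matrix.trace, map_sum]
  rfl

theorem io_map (ρ : ℂ →ₗ[ℚ] ℚ) (X : Matrix (Fin N) (Fin N) ℚ) : (io X).map ρ = ρ 1 • X := by
  ext i j
  rw [io, Matrix.map_apply, Matrix.map_apply, Matrix.smul_apply, smul_eq_mul,
    Algebra.algebraMap_eq_smul_one, map_smul, smul_eq_mul, mul_comm]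

theorem io_mem {S : Submodule ℚ (Matrix (Fin N) (Fin N) ℚ)} {X : Matrix (Fin N) (Fin N) ℚ}
    (hX : X ∈ S) : io X ∈ cxs S := Submodule.subset_span ⟨X, hX, rfl⟩

/-- descent for the complex span of a rational space -/
theorem cxs_map {S : Submodule ℚ (Matrix (Fin N) (Fin N) ℚ)} {Y : Matrix (Fin N) (Fin N) ℂ}
    (hY : Y ∈ cxs S) : ∀ ρ : ℂ →ₗ[ℚ] ℚ, Y.map ρ ∈ S := by
  refine Submodule.span_induction (p := fun Y _ => ∀ ρ : ℂ →ₗ[ℚ] ℚ, Y.map ρ ∈ S) ?_ ?_ ?_ ?_ hY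
  · rintro _ ⟨X, hX, rfl⟩ ρ
    have h1 := io_map ρ X
    rw [io] at h1
    rw [h1]
    exact S.smul_mem _ hX
  · intro ρ
    rw [map_zero'']
    exact S.zero_mem
  · intro x y _ _ hx hy ρ
    rw [map_add'']
    exact S.add_mem (hx ρ) (hy ρ)
  · intro c x _ hx ρ
    rw [map_smul'']
    exact hx _

section

variable (B : Submodule ℚ (Matrix (Fin N) (Fin N) ℚ))

/-- the rational algebra -/
abbrev AQ : Subalgebra ℚ (Matrix (Fin N) (Fin N) ℚ) :=
  Algebra.adjoin ℚ (B : Set (Matrix (Fin N) (Fin N) ℚ))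

/-- the complex algebra -/
abbrev AC : Subalgebra ℂ (Matrix (Fin N) (Fin N) ℂ) :=
  Algebra.adjoin ℂ (cxs B : Set (Matrix (Fin N) (Fin N) ℂ))

variable {B}

theorem io_adjoin {a : Matrix (Fin N) (Fin N) ℚ} (ha : a ∈ AQ B) : io a ∈ AC B := by
  induction ha using Algebra.adjoin_induction with
  | mem x hx => exact Algebra.subset_adjoin (io_mem hx)
  | algebraMap r =>
    have h1 : io (algebraMap ℚ (Matrix (Fin N) (Fin N) ℚ) r) =
        algebraMap ℂ (Matrix (Fin N) (Fin N) ℂ) (algebraMap ℚ ℂ r) := by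
      ext i j
      rw [io, Matrix.map_apply, Matrix.algebraMap_matrix_apply, Matrix.algebraMap_matrix_apply]
      by_cases h : i = j
      · rw [if_pos h, if_pos h]
        simp
      · rw [if_neg h, if_neg h]
        simp
    rw [h1]
    exact Subalgebra.algebraMap_mem _ _
  | add x y _ _ hx hy =>
    rw [io_add]
    exact Subalgebra.add_mem _ hx hy
  | mul x y _ _ hx hy =>
    rw [io_mul]
    exact Subalgebra.mul_mem _ hx hy

theorem cxs_mul {x y : Matrix (Fin N) (Fin N) ℂ}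
    (hx : x ∈ cxs (Subalgebra.toSubmodule (AQ B))) (hy : y ∈ cxs (Subalgebra.toSubmodule (AQ B))) :
    x * y ∈ cxs (Subalgebra.toSubmodule (AQ B)) := by
  refine Submodule.span_induction (p := fun x _ => x * y ∈ cxs (Subalgebra.toSubmodule (AQ B)))
    ?_ ?_ ?_ ?_ hx
  · rintro _ ⟨X, hX, rfl⟩
    refine Submodule.span_induction
      (p := fun y _ => X.map (algebraMap ℚ ℂ) * y ∈ cxs (Subalgebra.toSubmodule (AQ B)))
      ?_ ?_ ?_ ?_ hy
    · rintro _ ⟨Z, hZ, rfl⟩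
      have h1 := io_mul X Z
      rw [io, io, io] at h1
      rw [← h1]
      exact io_mem (Subalgebra.mul_mem _ hX hZ)
    · rw [mul_zero]
      exact Submodule.zero_mem _
    · intro a b _ _ ha hb
      rw [mul_add]
      exact Submodule.add_mem _ ha hb
    · intro c a _ ha
      rw [mul_smul_comm]
      exact Submodule.smul_mem _ _ ha
  · rw [zero_mul]
    exact Submodule.zero_mem _
  · intro a b _ _ ha hb
    rw [add_mul]
    exact Submodule.add_mem _ ha hb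
  · intro c a _ ha
    rw [smul_mul_assoc]
    exact Submodule.smul_mem _ _ ha

theorem adjoin_cxs {Y : Matrix (Fin N) (Fin N) ℂ} (hY : Y ∈ AC B) :
    Y ∈ cxs (Subalgebra.toSubmodule (AQ B)) := by
  induction hY using Algebra.adjoin_induction with
  | mem x hx =>
    refine Submodule.span_mono ?_ hx
    rintro _ ⟨X, hX, rfl⟩
    exact ⟨X, Algebra.subset_adjoin hX, rfl⟩
  | algebraMap r =>
    have h1 : algebraMap ℂ (Matrix (Fin N) (Fin N) ℂ) r =
        r • io (1 : Matrix (Fin N) (Fin N) ℚ) := by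
      have h2 : io (1 : Matrix (Fin N) (Fin N) ℚ) = 1 := by
        ext i j
        rw [io, Matrix.map_apply, Matrix.one_apply, Matrix.one_apply]
        by_cases h : i = j
        · rw [if_pos h, if_pos h, map_one]
        · rw [if_neg h, if_neg h, map_zero]
      rw [h2, Algebra.algebraMap_eq_smul_one]
    rw [h1]
    exact Submodule.smul_mem _ _ (io_mem (Subalgebra.one_mem _))
  | add x y _ _ hx hy => exact Submodule.add_mem _ hx hy
  | mul x y _ _ hx hy => exact cxs_mul hx hy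

theorem rad_map {r : Matrix (Fin N) (Fin N) ℂ} (hr : r ∈ radG (AC B)) (ρ : ℂ →ₗ[ℚ] ℚ) :
    r.map ρ ∈ radG (AQ B) := by
  refine ⟨cxs_map (adjoin_cxs hr.1) ρ, fun b hb => ?_⟩
  rw [← mul_io, trace_map, hr.2 _ (io_adjoin hb), map_zero]

theorem zt_map {z : Matrix (Fin N) (Fin N) ℂ} (hz : z ∈ ztG (AC B)) (ρ : ℂ →ₗ[ℚ] ℚ) :
    z.map ρ ∈ ztG (AQ B) := by
  refine ⟨cxs_map (adjoin_cxs hz.1) ρ, fun a ha => ?_⟩
  rw [← mul_io, ← io_mul', ← map_sub'']
  exact rad_map (hz.2 _ (io_adjoin ha)) ρ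

theorem hG_map {Y : Matrix (Fin N) (Fin N) ℂ} (hY : Y ∈ hG (cxs B)) (ρ : ℂ →ₗ[ℚ] ℚ) :
    Y.map ρ ∈ hG B := by
  obtain ⟨u, hu, r, hr, rfl⟩ := Submodule.mem_sup.1 hY
  rw [map_add'']
  refine Submodule.add_mem_sup ?_ (rad_map hr ρ)
  refine Submodule.mul_induction_on (C := fun u => u.map ρ ∈ ztG (AQ B) * B) hu ?_ ?_
  · intro z hz x hx
    have key : ∀ ρ : ℂ →ₗ[ℚ] ℚ, (z * x).map ρ ∈ ztG (AQ B) * B := by
      refine Submodule.span_induction
        (p := fun x _ => ∀ ρ : ℂ →ₗ[ℚ] ℚ, (z * x).map ρ ∈ ztG (AQ B) * B) ?_ ?_ ?_ ?_ hx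
      · rintro _ ⟨X, hX, rfl⟩ ρ
        have h1 := mul_io ρ z X
        rw [io] at h1
        rw [h1]
        exact Submodule.mul_mem_mul (zt_map hz ρ) hX
      · intro ρ
        rw [mul_zero, map_zero'']
        exact Submodule.zero_mem _
      · intro a b _ _ ha hb ρ
        rw [mul_add, map_add'']
        exact Submodule.add_mem _ (ha ρ) (hb ρ)
      · intro c a _ ha ρ
        rw [mul_smul_comm, map_smul'']
        exact ha _
    exact key ρ
  · intro a b ha hb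
    rw [map_add'']
    exact Submodule.add_mem _ ha hb

theorem io_rad {r : Matrix (Fin N) (Fin N) ℚ} (hr : r ∈ radG (AQ B)) : io r ∈ radG (AC B) := by
  refine ⟨io_adjoin hr.1, fun b hb => ?_⟩
  refine Submodule.span_induction (p := fun b _ => (io r * b).trace = 0) ?_ ?_ ?_ ?_ (adjoin_cxs hb)
  · rintro _ ⟨X, hX, rfl⟩
    have h1 := io_mul r X
    rw [show X.map (algebraMap ℚ ℂ) = io X from rfl, ← h1, io_trace, hr.2 X hX, map_zero]
  · rw [mul_zero, Matrix.trace_zero]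
  · intro a b _ _ ha hb
    rw [mul_add, Matrix.trace_add, ha, hb, add_zero]
  · intro c a _ ha
    rw [mul_smul_comm, Matrix.trace_smul, ha, smul_zero]

theorem io_zt {z : Matrix (Fin N) (Fin N) ℚ} (hz : z ∈ ztG (AQ B)) : io z ∈ ztG (AC B) := by
  refine ⟨io_adjoin hz.1, fun a ha => ?_⟩
  refine Submodule.span_induction (p := fun a _ => io z * a - a * io z ∈ radG (AC B)) ?_ ?_ ?_ ?_
    (adjoin_cxs ha)
  · rintro _ ⟨X, hX, rfl⟩
    rw [show X.map (algebraMap ℚ ℂ) = io X from rfl, ← io_mul, ← io_mul, ← io_sub]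
    exact io_rad (hz.2 X hX)
  · rw [mul_zero, zero_mul, sub_self]
    exact Submodule.zero_mem _
  · intro a b _ _ ha hb
    have h1 : io z * (a + b) - (a + b) * io z =
        (io z * a - a * io z) + (io z * b - b * io z) := by
      rw [mul_add, add_mul]; abel
    rw [h1]
    exact Submodule.add_mem _ ha hb
  · intro c a _ ha
    have h1 : io z * (c • a) - (c • a) * io z = c • (io z * a - a * io z) := by
      rw [mul_smul_comm, smul_mul_assoc, smul_sub]
    rw [h1]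
    exact Submodule.smul_mem _ _ ha

theorem io_hG {X : Matrix (Fin N) (Fin N) ℚ} (hX : X ∈ hG B) : io X ∈ hG (cxs B) := by
  obtain ⟨u, hu, r, hr, rfl⟩ := Submodule.mem_sup.1 hX
  rw [io_add]
  refine Submodule.add_mem_sup ?_ (io_rad hr)
  refine Submodule.mul_induction_on (C := fun u => io u ∈ ztG (AC B) * cxs B) hu ?_ ?_
  · intro z hz x hx
    rw [io_mul]
    exact Submodule.mul_mem_mul (io_zt hz) (io_mem hx)
  · intro a b ha hb
    rw [io_add]
    exact Submodule.add_mem _ ha hb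

end

theorem t_F2d : S_F2d := by
  intro N B X
  refine ⟨fun h => ?_, fun h => io_hG h⟩
  obtain ⟨π, hπ⟩ := LinearMap.exists_leftInverse_of_injective (Algebra.linearMap ℚ ℂ)
    (LinearMap.ker_eq_bot.2 (algebraMap ℚ ℂ).injective)
  have hπ1 : ∀ q : ℚ, π (algebraMap ℚ ℂ q) = q := fun q => LinearMap.congr_fun hπ q
  have h1 := hG_map h π
  have h2 : (X.map (algebraMap ℚ ℂ)).map π = X := by
    ext i j
    rw [Matrix.map_apply, Matrix.map_apply, hπ1]
  rwa [h2] at h1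

end Pool.Agent.Helper98.GrS
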